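import Pool.Agent.Y982.HS.Graph

/-!
# Parallel Markov chains: `k h^k` is nondecreasing, and the sharp hitting time speedup

The definitions for general Markov chains (`chain`, `hitTime`, `jointHit`, `jointHitMax`,
`commonHitMax`) are in `Pool.Agent.Y982.HS.Path`, the ones for digraphs are those of
`Pool.Agent.Results.MP_990fd9_pr.HitSpeedup`.
-/

open MeasureTheory ProbabilityTheory
open scoped ENNReal

namespace Pool.Agent.Results.MP_990fd9_pr.MonotoneSpeedup

open Pool.Agent.Y982.HS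

/-- Parts 1 and 2: arbitrary Markov chains on arbitrary measurable spaces and arbitrary measurable
targets. Part 3: simple random walk on finite digraphs (the answer to the question is the
inequality `hitMax G ≤ k * jointHitMax G k`). Part 4: the additive term is optimal. -/
theorem result.{u} :
    (∀ (V : Type u) [MeasurableSpace V] (κ : Kernel V V) [IsMarkovKernel κ] (A : Set V),
      MeasurableSet A → ∀ j k : ℕ, 1 ≤ j → j ≤ k →
        (j : ℝ≥0∞) * jointHitMax κ A j ≤ k * commonHitMax κ A k) ∧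
    (∀ (V : Type u) [MeasurableSpace V] (κ : Kernel V V) [IsMarkovKernel κ] (A : Set V),
      MeasurableSet A → A ≠ Set.univ → ∀ j k : ℕ, 1 ≤ j → 2 * j ≤ k →
        (j : ℝ≥0∞) * jointHitMax κ A j + ((k - j : ℕ) : ℝ≥0∞) / 2 ≤ k * commonHitMax κ A k) ∧
    (∀ (V : Type u) [Fintype V] [MeasurableSpace V] [DiscreteMeasurableSpace V] (G : Digraph V),
      HitSpeedup.hitMax G = HitSpeedup.jointHitMax G 1 ∧
      (∀ k : ℕ, 1 ≤ k → HitSpeedup.hitMax G ≤ k * HitSpeedup.jointHitMax G k) ∧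
      (∀ j k : ℕ, 1 ≤ j → j ≤ k →
        (j : ℝ≥0∞) * HitSpeedup.jointHitMax G j ≤ k * HitSpeedup.jointHitMax G k) ∧
      (Nontrivial V → ∀ k : ℕ, 1 ≤ k →
        HitSpeedup.hitMax G + ((k - 1 : ℕ) : ℝ≥0∞) / 2 ≤ k * HitSpeedup.jointHitMax G k) ∧
      (Nontrivial V → ∀ j k : ℕ, 1 ≤ j → 2 * j ≤ k →
        (j : ℝ≥0∞) * HitSpeedup.jointHitMax G j + ((k - j : ℕ) : ℝ≥0∞) / 2
          ≤ k * HitSpeedup.jointHitMax G k)) ∧
    (∀ k : ℕ, 1 ≤ k → ∀ ε : ℝ, 0 < ε → ∃ (n : ℕ) (G : Digraph (Fin n)), 2 ≤ n ∧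
      (∀ x y, G.Adj x y ↔ x ≠ y) ∧ HitSpeedup.StronglyConnected G ∧
      (k : ℝ≥0∞) * HitSpeedup.jointHitMax G k
        ≤ HitSpeedup.hitMax G + ((k - 1 : ℕ) : ℝ≥0∞) / 2 + ENNReal.ofReal ε) := by
  refine ⟨fun V _ κ _ A hA j k hj hjk => monotone_hit κ hA hj hjk,
    fun V _ κ _ A hA hne j k hj hjk => sharp_hit κ hA hne hj hjk, ?_, ?_⟩
  · intro V _ _ _ G
    refine ⟨hitMax_eq G, fun k hk => ?_, fun j k hj hjk => graph_mono G hj hjk, fun hV k hk => ?_,
      fun hV j k hj hjk => graph_sharp G hj hjk⟩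
    · have h := graph_mono G le_rfl hk
      rwa [Nat.cast_one, one_mul, ← hitMax_eq] at h
    · rcases Nat.lt_or_ge k 2 with h2 | h2
      · obtain rfl : k = 1 := by omega
        simp [hitMax_eq]
      · have h := graph_sharp G le_rfl (by omega : 2 * 1 ≤ k)
        rwa [Nat.cast_one, one_mul, ← hitMax_eq] at h
  · intro k hk ε hε
    obtain ⟨n, hn, hb⟩ := complete_sharp hk hε
    exact ⟨n, complete n, hn, fun x y => Iff.rfl, complete_connected n, hb⟩

end Pool.Agent.Results.MP_990fd9_pr.MonotoneSpeedup
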